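import Mathlib

/-!
# MP_cda11a_an: a totally disconnected closed relation with `Δ ⊆ G²` without `(1,2)`-shadowing

Limit set `L = OnePoint (Bool × ℕ)`: two one-sided paths converging to `∞`. Along every edge of
each path, isolated matched pairs of points accumulate.
-/

set_option autoImplicit false
open Filter Topology Uniformity Set

namespace Pool.Agent.Results.MP_cda11a_an.NoShadowing

/-- `(x, y) ∈ G^n`: there are `x = w 0, w 1, …, w n = y` with `(w k, w (k+1)) ∈ G` for `k < n`. -/
def relPow {X : Type} (G : Set (X × X)) (n : ℕ) : Set (X × X) :=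
  {p | ∃ w : ℕ → X, w 0 = p.1 ∧ w n = p.2 ∧ ∀ k < n, (w k, w (k + 1)) ∈ G}

/-- `x` is a `(V,1)`-pseudo-orbit: `(y, x (m+1)) ∈ V` for every `m` and every `y ∈ G(x m)`. -/
def IsPseudoOrbit1 {X : Type} (G V : Set (X × X)) (x : ℕ → X) : Prop :=
  ∀ m, ∀ y, (x m, y) ∈ G → (y, x (m + 1)) ∈ V

/-- `y` `(U,2)`-shadows `x`: some sequence `t` with `t 0 = y` and `(t m, t (m+1)) ∈ G` for all `m`
satisfies `(t m, x m) ∈ U` for all `m`. -/
def Shadows2 {X : Type} (G U : Set (X × X)) (y : X) (x : ℕ → X) : Prop :=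
  ∃ t : ℕ → X, t 0 = y ∧ (∀ m, (t m, t (m + 1)) ∈ G) ∧ ∀ m, (t m, x m) ∈ U

/-- The `(1,2)`-shadowing property. -/
def HasShadowing12 {X : Type} [UniformSpace X] (G : Set (X × X)) : Prop :=
  ∀ U ∈ 𝓤 X, ∃ V ∈ 𝓤 X, ∀ x : ℕ → X, IsPseudoOrbit1 G V x → ∃ y, Shadows2 G U y x

/-! ### The space -/

/-- vertices of the two paths -/
abbrev Ve : Type := Bool × ℕ

/-- isolated points -/
abbrev Is : Type := Ve × Bool × ℕ

/-- the next vertex -/
def nx (v : Ve) : Ve := (v.1, v.2 + 1)

/-- the location of an isolated point -/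
def loc (c : Is) : Ve := if c.2.1 then nx c.1 else c.1

/-- the matching of the isolated points -/
def mt (c : Is) : Is := (c.1, !c.2.1, c.2.2)

/-- extension of `nx` -/
def F : OnePoint Ve → OnePoint Ve := OnePoint.map nx

/-- extension of `mt` -/
def Mu : OnePoint Is → OnePoint Is := OnePoint.map mt

lemma cofin {V : Type} [TopologicalSpace V] [DiscreteTopology V] :
    coclosedCompact V = cofinite := by
  rw [coclosedCompact_eq_cocompact, cocompact_eq_cofinite]

lemma nx_inj : Function.Injective nx := by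
  rintro ⟨a, b⟩ ⟨c, d⟩ h
  simp only [nx, Prod.mk.injEq] at h
  ext
  · exact h.1
  · simpa using h.2

lemma mt_inj : Function.Injective mt := by
  rintro ⟨a, b, c⟩ ⟨a', b', c'⟩ h
  simp only [mt, Prod.mk.injEq] at h
  obtain ⟨h1, h2, h3⟩ := h
  have : b = b' := by revert h2; cases b <;> cases b' <;> simp
  rw [h1, this, h3]

lemma F_cont : Continuous F := by
  apply OnePoint.continuous_map continuous_of_discreteTopology
  rw [cofin]
  exact nx_inj.tendsto_cofinite

lemma Mu_cont : Continuous Mu := by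
  apply OnePoint.continuous_map continuous_of_discreteTopology
  rw [cofin]
  exact mt_inj.tendsto_cofinite

/-- the space -/
def XX : Set (OnePoint Ve × OnePoint Is) :=
  {x | x.2 = OnePoint.infty ∨ ∃ c : Is, x.2 = (c : OnePoint Is) ∧ x.1 = ((loc c : Ve) : OnePoint Ve)}

lemma isOpen_coe {V : Type} [TopologicalSpace V] [DiscreteTopology V] (v : V) :
    IsOpen ({(v : OnePoint V)} : Set (OnePoint V)) := by
  have := (OnePoint.isOpenEmbedding_coe (X := V)).isOpenMap _ (isOpen_discrete ({v} : Set V))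
  simpa using this

lemma XX_closed : IsClosed XX := by
  rw [← isOpen_compl_iff]
  have : XXᶜ = ⋃ c : Is, {x : OnePoint Ve × OnePoint Is | x.2 ∈ ({(c : OnePoint Is)} : Set _) ∧
      x.1 ∈ ({((loc c : Ve) : OnePoint Ve)} : Set _)ᶜ} := by
    ext x
    simp only [XX, mem_compl_iff, mem_ofPred_eq, mem_iUnion, mem_singleton_iff, not_or, not_exists,
      not_and]
    constructor
    · rintro ⟨h1, h2⟩
      obtain ⟨c, hc⟩ := OnePoint.ne_infty_iff_exists.1 h1
      exact ⟨c, hc.symm, h2 c hc.symm⟩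
    · rintro ⟨c, hc, h⟩
      refine ⟨by rw [hc]; exact OnePoint.coe_ne_infty c, fun c' hc' => ?_⟩
      rw [hc] at hc'
      rw [← OnePoint.coe_injective hc']
      exact h
  rw [this]
  refine isOpen_iUnion fun c => ?_
  exact ((isOpen_coe c).preimage continuous_snd).inter
    ((isClosed_singleton.isOpen_compl).preimage continuous_fst)

/-- isolated points -/
def iso (c : Is) : XX := ⟨(((loc c : Ve) : OnePoint Ve), (c : OnePoint Is)), Or.inr ⟨c, rfl, rfl⟩⟩

/-- limit points -/
def lim (p : OnePoint Ve) : XX := ⟨(p, OnePoint.infty), Or.inl rfl⟩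

/-- the relation -/
def GG : Set (XX × XX) :=
  {z | (z.2.1.1 = F z.1.1.1 ∨ z.1.1.1 = F z.2.1.1) ∧ z.2.1.2 = Mu z.1.1.2}

lemma GG_closed : IsClosed GG := by
  have c1 : Continuous fun z : XX × XX => z.1.1.1 :=
    continuous_fst.comp (continuous_subtype_val.comp continuous_fst)
  have c2 : Continuous fun z : XX × XX => z.2.1.1 :=
    continuous_fst.comp (continuous_subtype_val.comp continuous_snd)
  have c3 : Continuous fun z : XX × XX => z.1.1.2 :=
    continuous_snd.comp (continuous_subtype_val.comp continuous_fst)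
  have c4 : Continuous fun z : XX × XX => z.2.1.2 :=
    continuous_snd.comp (continuous_subtype_val.comp continuous_snd)
  exact ((isClosed_eq c2 (F_cont.comp c1)).union (isClosed_eq c1 (F_cont.comp c2))).inter
    (isClosed_eq c4 (Mu_cont.comp c3))

lemma loc_edge (c : Is) : ((loc (mt c) : Ve) : OnePoint Ve) = F (loc c : Ve) ∨
    ((loc c : Ve) : OnePoint Ve) = F (loc (mt c) : Ve) := by
  obtain ⟨v, s, n⟩ := c
  cases s
  · left; rfl
  · right; rfl

lemma iso_edge (c : Is) : (iso c, iso (mt c)) ∈ GG := ⟨loc_edge c, rfl⟩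

lemma mt_mt (c : Is) : mt (mt c) = c := by
  obtain ⟨v, s, n⟩ := c
  simp [mt]

lemma iso_image {c : Is} {y : XX} (h : (iso c, y) ∈ GG) : y = iso (mt c) := by
  obtain ⟨-, h2⟩ := h
  have h3 : y.1.2 = ((mt c : Is) : OnePoint Is) := h2
  rcases y.2 with hy | ⟨c', hc', hl⟩
  · rw [hy] at h3
    exact absurd h3.symm (OnePoint.coe_ne_infty _)
  · rw [h3] at hc'
    have := OnePoint.coe_injective hc'
    apply Subtype.ext
    apply Prod.ext
    · rw [hl, ← this]; rfl
    · rw [h3]; rfl

lemma diag_sq (x : XX) : (x, x) ∈ relPow GG 2 := by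
  have key : ∃ y, (x, y) ∈ GG ∧ (y, x) ∈ GG := by
    rcases x.2 with hx | ⟨c, hc, hl⟩
    · refine ⟨lim (F x.1.1), ⟨Or.inl rfl, ?_⟩, ⟨Or.inr rfl, ?_⟩⟩
      · change OnePoint.infty = Mu x.1.2
        rw [hx]; rfl
      · change x.1.2 = Mu OnePoint.infty
        rw [hx]; rfl
    · have hxc : x = iso c := Subtype.ext (Prod.ext hl hc)
      refine ⟨iso (mt c), ?_, ?_⟩
      · rw [hxc]; exact iso_edge c
      · rw [hxc]
        have := iso_edge (mt c)
        rwa [mt_mt] at this
  obtain ⟨y, h1, h2⟩ := key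
  refine ⟨fun k => if k = 1 then y else x, by simp, by simp, fun k hk => ?_⟩
  interval_cases k
  · simpa using h1
  · simpa using h2

/-! ### Convergence -/

lemma tendsto_iso {α : Type} {l : Filter α} {c : α → Is} {p : OnePoint Ve}
    (h1 : Tendsto (fun a => ((loc (c a) : Ve) : OnePoint Ve)) l (𝓝 p))
    (h2 : Tendsto c l cofinite) : Tendsto (fun a => iso (c a)) l (𝓝 (lim p)) := by
  rw [tendsto_subtype_rng]
  apply h1.prodMk_nhds
  have h3 : Tendsto ((↑) : Is → OnePoint Is) cofinite (𝓝 OnePoint.infty) := by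
    rw [← cofin]; exact OnePoint.tendsto_coe_infty
  exact h3.comp h2

lemma tendsto_level (v : Ve) (s : Bool) :
    Tendsto (fun n : ℕ => iso (v, s, n)) atTop (𝓝 (lim ((loc (v, s, 0) : Ve) : OnePoint Ve))) := by
  apply tendsto_iso
  · exact tendsto_const_nhds
  · rw [← Nat.cofinite_eq_atTop]
    apply Function.Injective.tendsto_cofinite
    intro a b h
    simpa using h

lemma tendsto_far (σ : Bool) (s : Bool) :
    Tendsto (fun q : ℕ × ℕ => iso ((σ, q.1), s, q.2)) (comap Prod.fst atTop)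
      (𝓝 (lim OnePoint.infty)) := by
  have hinj : Tendsto (fun q : ℕ × ℕ => (((σ, q.1), s, q.2) : Is)) (comap Prod.fst atTop) cofinite := by
    intro S hS
    rw [mem_map, mem_comap]
    have hfin : Sᶜ.Finite := hS
    have hb : BddAbove ((fun c : Is => c.1.2) '' Sᶜ) := (hfin.image _).bddAbove
    obtain ⟨B, hB⟩ := hb
    refine ⟨Ioi B, Ioi_mem_atTop B, ?_⟩
    rintro ⟨M, n⟩ hM
    by_contra hcon
    have : M ≤ B := hB ⟨_, hcon, rfl⟩
    exact absurd (show B < M from hM) (not_lt.2 this)
  apply tendsto_iso _ hinj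
  have h3 : Tendsto ((↑) : Ve → OnePoint Ve) cofinite (𝓝 OnePoint.infty) := by
    rw [← cofin]; exact OnePoint.tendsto_coe_infty
  apply h3.comp
  intro S hS
  rw [mem_map, mem_comap]
  have hfin : Sᶜ.Finite := hS
  obtain ⟨B, hB⟩ : BddAbove ((fun c : Ve => c.2) '' Sᶜ) := (hfin.image _).bddAbove
  refine ⟨Ioi B, Ioi_mem_atTop B, ?_⟩
  rintro ⟨M, n⟩ hM
  by_contra hcon
  have h1 : (loc ((σ, M), s, n)).2 ≤ B := hB ⟨_, hcon, rfl⟩
  have h2 : M ≤ (loc ((σ, M), s, n)).2 := by
    unfold loc nx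
    split_ifs <;> simp
  exact absurd (show B < M from hM) (not_lt.2 (h2.trans h1))

/-! ### No shadowing -/

/-- the component is invariant along trajectories -/
lemma comp_inv {x y : XX} (h : (x, y) ∈ GG) {σ : Bool} {j : ℕ}
    (hx : x.1.1 = (((σ, j) : Ve) : OnePoint Ve)) :
    ∃ j', y.1.1 = (((σ, j') : Ve) : OnePoint Ve) := by
  rcases h.1 with h1 | h1
  · refine ⟨j + 1, ?_⟩
    have : y.1.1 = F x.1.1 := h1
    rw [this, hx]; rfl
  · have h2 : x.1.1 = F y.1.1 := h1
    rw [hx] at h2
    rcases OnePoint.exists.1 (⟨y.1.1, rfl⟩ : ∃ p, y.1.1 = p) with h3 | ⟨v, h3⟩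
    · rw [h3] at h2
      exact absurd h2 (OnePoint.coe_ne_infty _)
    · rw [h3] at h2
      have h4 : (σ, j) = nx v := OnePoint.coe_injective h2
      refine ⟨v.2, ?_⟩
      rw [h3]
      have : v.1 = σ := by
        have := congrArg Prod.fst h4
        simpa [nx] using this.symm
      rw [← this]

/-- the pseudo-orbit -/
def po (M n : ℕ) (m : ℕ) : XX :=
  if m ≤ M then iso ((false, m), false, n)
  else if m ≤ 2 * M + 1 then iso ((true, 2 * M + 1 - m), true, n)
  else if Even m then iso ((true, 0), false, n) else iso ((true, 0), true, n)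

lemma no_shadowing : ∃ U ∈ 𝓝ˢ (diagonal XX), ∀ V ∈ 𝓝ˢ (diagonal XX),
    ∃ x, IsPseudoOrbit1 GG V x ∧ ∀ y, ¬ Shadows2 GG U y x := by
  -- the entourage
  let P : Bool → Set XX := fun σ => {x | x.1.1 = (((σ, 0) : Ve) : OnePoint Ve)}
  have hP : ∀ σ, IsClopen (P σ) := by
    intro σ
    have h1 : IsClopen ({(((σ, 0) : Ve) : OnePoint Ve)} : Set (OnePoint Ve)) :=
      ⟨isClosed_singleton, isOpen_coe _⟩
    exact h1.preimage (continuous_fst.comp continuous_subtype_val)
  let U : Set (XX × XX) := {z | ∀ σ, (z.1 ∈ P σ ↔ z.2 ∈ P σ)}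
  have hU : U ∈ 𝓝ˢ (diagonal XX) := by
    rw [mem_nhdsSet_iff_forall]
    rintro ⟨x, y⟩ hxy
    obtain rfl : x = y := hxy
    have : U = ⋂ σ : Bool, {z : XX × XX | z.1 ∈ P σ ↔ z.2 ∈ P σ} := by ext; simp [U]
    rw [this]
    refine (isOpen_iInter_of_finite fun σ => ?_).mem_nhds (mem_iInter.2 fun σ => Iff.rfl)
    have e : {z : XX × XX | z.1 ∈ P σ ↔ z.2 ∈ P σ} = (P σ ×ˢ P σ) ∪ ((P σ)ᶜ ×ˢ (P σ)ᶜ) := by
      ext z; simp only [mem_ofPred_eq, mem_union, mem_prod, mem_compl_iff]; tauto
    rw [e]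
    exact ((hP σ).2.prod (hP σ).2).union ((hP σ).1.isOpen_compl.prod (hP σ).1.isOpen_compl)
  refine ⟨U, hU, fun V hV => ?_⟩
  have hVn : ∀ x : XX, V ∈ 𝓝 (x, x) := fun x => mem_nhdsSet_iff_forall.1 hV (x, x) rfl
  have hrefl : ∀ x : XX, (x, x) ∈ V := fun x => mem_of_mem_nhds (hVn x)
  have hlev := tendsto_level
  have hfar := tendsto_far
  -- choice of `M`
  have h1 : ∀ᶠ q : ℕ × ℕ in comap Prod.fst atTop,
      (iso ((false, q.1), true, q.2), iso ((true, q.1), true, q.2)) ∈ V :=
    ((hfar false true).prodMk_nhds (hfar true true)).eventually (hVn _)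
  rw [eventually_comap] at h1
  obtain ⟨M, hM⟩ := h1.exists
  -- choice of `n`
  have h2 : ∀ k : ℕ, ∀ᶠ n : ℕ in atTop,
      (iso ((false, k), true, n), iso ((false, k + 1), false, n)) ∈ V ∧
      (iso ((true, k + 1), false, n), iso ((true, k), true, n)) ∈ V := by
    intro k
    have a1 := ((hlev (false, k) true).prodMk_nhds (hlev (false, k + 1) false)).eventually (hVn _)
    have a2 := ((hlev (true, k + 1) false).prodMk_nhds (hlev (true, k) true)).eventually (hVn _)
    exact a1.and a2
  have h3 : ∀ᶠ n : ℕ in atTop, ∀ k ∈ Finset.range M,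
      (iso ((false, k), true, n), iso ((false, k + 1), false, n)) ∈ V ∧
      (iso ((true, k + 1), false, n), iso ((true, k), true, n)) ∈ V :=
    (eventually_all_finset _).2 fun k _ => h2 k
  obtain ⟨n, hn⟩ := h3.exists
  have hpo : IsPseudoOrbit1 GG V (po M n) := by
    intro m y hy
    unfold po at hy ⊢
    by_cases c1 : m ≤ M
    · rw [if_pos c1] at hy
      rw [iso_image hy]
      rcases Nat.lt_or_ge m M with c2 | c2
      · rw [if_pos (by omega)]
        exact (hn m (Finset.mem_range.2 c2)).1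
      · obtain rfl : m = M := by omega
        rw [if_neg (by omega), if_pos (by omega)]
        have e : 2 * m + 1 - (m + 1) = m := by omega
        rw [e]
        exact hM (m, n) rfl
    · rw [if_neg c1] at hy
      rw [if_neg (by omega)]
      by_cases c3 : m ≤ 2 * M + 1
      · rw [if_pos c3] at hy
        rw [iso_image hy]
        rcases Nat.lt_or_ge m (2 * M + 1) with c4 | c4
        · rw [if_pos (by omega)]
          have := (hn (2 * M - m) (Finset.mem_range.2 (by omega))).2
          have e1 : 2 * M - m + 1 = 2 * M + 1 - m := by omega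
          have e2 : 2 * M + 1 - (m + 1) = 2 * M - m := by omega
          rw [e1] at this
          rw [e2]
          exact this
        · obtain rfl : m = 2 * M + 1 := by omega
          rw [if_neg (by omega), if_pos ⟨M + 1, by ring⟩]
          rw [Nat.sub_self]
          exact hrefl _
      · rw [if_neg c3] at hy
        rw [if_neg (by omega)]
        by_cases c5 : Even m
        · rw [if_pos c5] at hy
          rw [iso_image hy, if_neg (by rw [Nat.even_add_one]; simpa using c5)]
          exact hrefl _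
        · rw [if_neg c5] at hy
          rw [iso_image hy, if_pos (by rw [Nat.even_add_one]; exact c5)]
          exact hrefl _
  refine ⟨po M n, hpo, ?_⟩
  rintro y ⟨t, -, htr, hsh⟩
  -- the trajectory starts in the first component
  have hstart : (t 0).1.1 = (((false, 0) : Ve) : OnePoint Ve) := by
    have := (hsh 0 false).2
    apply this
    change (po M n 0).1.1 = _
    unfold po
    rw [if_pos (Nat.zero_le _)]
    rfl
  have hall : ∀ m, ∃ j, (t m).1.1 = (((false, j) : Ve) : OnePoint Ve) := by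
    intro m
    induction m with
    | zero => exact ⟨0, hstart⟩
    | succ m ih =>
      obtain ⟨j, hj⟩ := ih
      exact comp_inv (htr m) hj
  have hend : (t (2 * M + 2)).1.1 = (((true, 0) : Ve) : OnePoint Ve) := by
    have := (hsh (2 * M + 2) true).2
    apply this
    change (po M n (2 * M + 2)).1.1 = _
    unfold po
    rw [if_neg (by omega), if_neg (by omega), if_pos ⟨M + 1, by ring⟩]
    rfl
  obtain ⟨j, hj⟩ := hall (2 * M + 2)
  rw [hend] at hj
  have := OnePoint.coe_injective hj
  simp at this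

/-- There are a totally disconnected nonempty compact Hausdorff space `X`, a (nonempty) closed
relation `G` on `X` and `n ≥ 1` with `Δ_X ⊆ G^n` such that `(X, G)` fails the `(1,2)`-shadowing
property; one may take `n = 2`. -/
theorem result : ∃ (X : Type) (_ : UniformSpace X) (_ : CompactSpace X) (_ : T2Space X)
    (_ : TotallyDisconnectedSpace X) (_ : Nonempty X) (G : Set (X × X)) (n : ℕ),
    IsClosed G ∧ G.Nonempty ∧ 1 ≤ n ∧ (∀ x : X, (x, x) ∈ relPow G n) ∧ ¬ HasShadowing12 G := by
  haveI : CompactSpace XX := isCompact_iff_compactSpace.1 XX_closed.isCompact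
  letI : UniformSpace XX := uniformSpaceOfCompactR1
  refine ⟨XX, inferInstance, inferInstance, inferInstance, inferInstance,
    ⟨lim OnePoint.infty⟩, GG, 2, GG_closed, ⟨_, iso_edge ((false, 0), false, 0)⟩, by norm_num,
    diag_sq, ?_⟩
  intro h
  obtain ⟨U, hU, hUV⟩ := no_shadowing
  obtain ⟨V, hV, hVsh⟩ := h U hU
  obtain ⟨x, hx, hno⟩ := hUV V hV
  obtain ⟨y, hy⟩ := hVsh x hx
  exact hno y hy

end Pool.Agent.Results.MP_cda11a_an.NoShadowing
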